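import Pool.Agent.Helper76_Bisect.Equiv

set_option autoImplicit false

/-!
For every `0 < ρ < 1/8`: `ρ`-Bisection has a (possibly non-uniform) smoothed tester running in time
polynomial in `1 / ε` and `1 / σ`, as in Q1, if and only if `NP ⊆ P/poly`.
-/

namespace Pool.Agent.Results.MP_f2f204_lc.FastTesterIffNPinPpoly

open Pool.Agent.Helper76_Bisect

theorem result (ρ : ℝ) (h0 : 0 < ρ) (h1 : ρ < 1 / 8) :
    HasFastSmoothedTester ρ ↔ NPSubsetPPoly :=
  fast_tester_iff h0 h1

end Pool.Agent.Results.MP_f2f204_lc.FastTesterIffNPinPpoly
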