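import Pool.Agent.Helper87_UT.Main

set_option autoImplicit false

/-!
For every `0 < ρ < 1/8` which is rational, or for which `n ↦ ⌊ρ n⌋` is computable in polynomial
time (numbers in unary): there is a uniform randomized algorithm as in Q1 (its next move is computed
by a Turing machine in polynomial time, it makes a polynomial number in `1 / ε` and `1 / σ` of coin
tosses, random vertices and moves) if and only if `NP ⊆ BPP`; and it is enough to have the algorithm
for `ε = 1 / a` and `σ = 1 / b`.

All definitions of the statement are in `Pool.Agent.Helper87_UT.Defs` (testers, `BPP`),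
`Pool.Agent.Helper76_Bisect.Defs` (`RhoBisection`, `toggleProb`) and
`Pool.Agent.Helper32_HCK.Defs` (`InNP`).
-/

namespace Pool.Agent.Results.MP_f2f204_lc.UniformTesterIffNPinBPP

open Pool.Agent.UT

theorem result (ρ : ℝ) (h0 : 0 < ρ) (h1 : ρ < 1 / 8)
    (hρ : (∃ r : ℚ, (r : ℝ) = ρ) ∨ UnaryComputable ρ) :
    [HasUniformTester ρ, HasWeakTester ρ, NPSubsetBPP].TFAE :=
  Pool.Agent.UT.H87.main ρ h0 h1 hρ

end Pool.Agent.Results.MP_f2f204_lc.UniformTesterIffNPinBPP
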